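import Pool.Agent.Helper46.KG.Defs

/-!
# Packet KG-N: splitting off a non-abelian Sylow subgroup of a nilpotent normal subgroup
-/

set_option autoImplicit false

namespace Helper22.KG

open Helper46.KG

universe u

/-- A finite nilpotent group which is not commutative has a non-commutative Sylow subgroup `P0`
which is a retract: there is a surjective homomorphism onto `P0`. -/
theorem exists_sylow (N : Type u) [Group N] [Finite N] (hN : Group.IsNilpotent N)
    (hna : ¬ ∀ x y : N, x * y = y * x) :
    ∃ (p : ℕ) (_ : Fact p.Prime) (P0 : Sylow p N), (P0 : Subgroup N).Normal ∧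
      (¬ ∀ x y : P0, x * y = y * x) ∧ ∃ φ : N →* P0, Function.Surjective φ := by
  have hnorm : ∀ (p : ℕ) (_ : Fact p.Prime) (P : Sylow p N), (P : Subgroup N).Normal :=
    ((Group.isNilpotent_of_finite_tfae (G := N)).out 0 3).mp hN
  have hn' : ∀ {p : ℕ} [Fact p.Prime] (P : Sylow p N), (P : Subgroup N).Normal :=
    fun {p} hp P => hnorm p hp P
  have e := Sylow.directProductOfNormal (G := N) hn'
  by_contra hcon
  push Not at hcon
  apply hna
  have hcomm : ∀ f g : (∀ p : (Nat.card N).primeFactors, ∀ P : Sylow (p : ℕ) N, P),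
      f * g = g * f := by
    intro f g
    funext p P
    by_contra hne
    have : Fact (p : ℕ).Prime := ⟨Nat.prime_of_mem_primeFactors p.2⟩
    refine hcon (p : ℕ) ⟨Nat.prime_of_mem_primeFactors p.2⟩ P (hn' P)
      ⟨f p P, g p P, hne⟩ ?_ ?_
    · exact ((Pi.evalMonoidHom (fun P : Sylow (p : ℕ) N => (P : Subgroup N)) P).comp
        (Pi.evalMonoidHom (fun p : (Nat.card N).primeFactors =>
          ∀ P : Sylow (p : ℕ) N, (P : Subgroup N)) p)).comp e.symm.toMonoidHom
    · intro y
      classical
      obtain ⟨h, hh⟩ : ∃ h : (∀ p : (Nat.card N).primeFactors, ∀ P : Sylow (p : ℕ) N, P),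
          h p P = y := by
        refine ⟨Function.update 1 p (Function.update 1 P y), ?_⟩
        simp
      exact ⟨e h, by simp [hh]⟩
  intro x y
  apply e.symm.injective
  rw [map_mul, map_mul]
  exact hcomm _ _

theorem stN : StN.{u} := by
  intro G _ _ N _ hN hna
  have hna' : ¬ ∀ x y : N, x * y = y * x := by
    intro h
    apply hna
    intro x hx y hy
    have := h ⟨x, hx⟩ ⟨y, hy⟩
    exact congrArg Subtype.val this
  obtain ⟨p, hp, P0, hP0, hP0na, φ, hφ⟩ := exists_sylow N hN hna'
  obtain ⟨a, ha⟩ := IsPGroup.iff_card.mp P0.isPGroup'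
  -- `a ≥ 2`
  have ha2 : 2 ≤ a := by
    by_contra hlt
    apply hP0na
    have : a = 0 ∨ a = 1 := by omega
    rcases this with h | h
    · subst h
      rw [pow_zero] at ha
      have hs : Subsingleton P0 := (Nat.card_eq_one_iff_unique.mp ha).1
      intro x y
      exact Subsingleton.elim _ _
    · subst h
      rw [pow_one] at ha
      have : IsCyclic P0 := isCyclic_of_prime_card ha
      intro x y
      exact IsCyclic.commGroup.mul_comm x y
  set R0 : Subgroup N := φ.ker with hR0
  have hcard : Nat.card (P0 : Subgroup N) * Nat.card R0 = Nat.card N := by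
    have h1 := Subgroup.card_mul_index φ.ker
    have h2 : φ.ker.index = Nat.card (P0 : Subgroup N) := by
      rw [Subgroup.index_ker, MonoidHom.range_eq_top.mpr hφ, Subgroup.card_top]
    rw [h2] at h1
    rw [mul_comm]
    exact h1
  have hindex : (P0 : Subgroup N).index = Nat.card R0 := by
    have h1 := Subgroup.card_mul_index (P0 : Subgroup N)
    have hpos : 0 < Nat.card (P0 : Subgroup N) := Nat.card_pos
    exact Nat.eq_of_mul_eq_mul_left hpos (h1.trans hcard.symm)
  have hcop : (Nat.card R0).Coprime p := by
    have h := Sylow.not_dvd_index P0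
    rw [hindex] at h
    exact ((Nat.Prime.coprime_iff_not_dvd hp.out).mpr h).symm
  have hmemR : ∀ x : N, x ∈ R0 ↔ (orderOf x).Coprime p := by
    intro x
    constructor
    · intro hx
      have hdvd : orderOf x ∣ Nat.card R0 := by
        have := orderOf_dvd_natCard (⟨x, hx⟩ : R0)
        rwa [← Subgroup.orderOf_coe] at this
      exact Nat.Coprime.coprime_dvd_left hdvd hcop
    · intro hx
      have h1 : orderOf (φ x) ∣ orderOf x := orderOf_map_dvd φ x
      have h2 : orderOf (φ x) ∣ p ^ a := by
        have := orderOf_dvd_natCard (φ x)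
        rwa [ha] at this
      have h3 : orderOf (φ x) = 1 := by
        have h4 : (orderOf x).Coprime (p ^ a) := Nat.Coprime.pow_right a hx
        exact Nat.eq_one_of_dvd_coprimes h4 h1 h2
      rw [hR0, MonoidHom.mem_ker]
      exact orderOf_eq_one_iff.mp h3
  have hR0char : R0.Characteristic := by
    rw [Subgroup.characteristic_iff_le_comap]
    intro ψ x hx
    rw [Subgroup.mem_comap]
    rw [hmemR] at hx ⊢
    rwa [MulEquiv.coe_toMonoidHom, MulEquiv.orderOf_eq]
  have hP0char : (P0 : Subgroup N).Characteristic := Sylow.characteristic_of_normal P0 hP0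
  have hcompl : Subgroup.IsComplement' (P0 : Subgroup N) R0 := by
    apply Subgroup.isComplement'_of_coprime hcard
    rw [ha]
    exact Nat.Coprime.pow_left a hcop.symm
  refine ⟨p, a, (P0 : Subgroup N).map N.subtype, R0.map N.subtype, hp.out, inferInstance,
    inferInstance, ?_, ?_, ha2, ?_, ?_⟩
  · rw [← Subgroup.map_sup, hcompl.sup_eq_top, ← MonoidHom.range_eq_map, Subgroup.range_subtype]
  · rw [← Subgroup.map_inf _ _ _ N.subtype_injective, hcompl.disjoint.eq_bot, Subgroup.map_bot]
  · rw [Subgroup.card_map_of_injective N.subtype_injective]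
    exact ha
  · rw [Subgroup.card_map_of_injective N.subtype_injective]
    exact hcop

end Helper22.KG
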